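import Pool.Agent.MP_3ee8cb_gt.D3.Spec

/-! A contact map of class `C¹` is symplectic; its fibres are fronts. -/

namespace Pool.Agent.MP_3ee8cb_gt.D3.LN

open Set Filter Topology Asymptotics
open scoped RealInnerProductSpace

noncomputable section

section Gen

variable {E F : Type} [NormedAddCommGroup E] [NormedSpace ℝ E] [NormedAddCommGroup F]
  [NormedSpace ℝ F]

/-- The product of a differentiable factor that vanishes and a continuous factor. -/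
theorem hasFDerivAt_comp0 {a : E → F →L[ℝ] ℝ} {a' : E →L[ℝ] F →L[ℝ] ℝ} {b : E → E →L[ℝ] F}
    {z : E} (ha : HasFDerivAt a a' z) (h0 : a z = 0) (hb : ContinuousAt b z) :
    HasFDerivAt (fun w => (a w).comp (b w))
      (((ContinuousLinearMap.compL ℝ E F ℝ).flip (b z)).comp a') z := by
  have h1 := ha.isLittleO
  have h2 : (fun w => (a w - a z - a' (w - z)).comp (b w)) =o[𝓝 z] fun w => w - z := by
    refine (IsBigO.of_bound 1 (.of_forall fun w => ?_)).trans_isLittleO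
      (h1.norm_norm.mul_isBigO (hb.norm.isBigO_one ℝ) |>.trans_isBigO (IsBigO.of_bound 1
        (.of_forall fun w => by simp)))
    rw [one_mul, norm_mul, norm_norm, norm_norm]
    exact ContinuousLinearMap.opNorm_comp_le _ _
  have h3 : (fun w => (a' (w - z)).comp (b w - b z)) =o[𝓝 z] fun w => w - z := by
    have h4 : (fun w => b w - b z) =o[𝓝 z] fun _ => (1 : ℝ) :=
      (isLittleO_one_iff ℝ).2 (tendsto_sub_nhds_zero_iff.2 hb)
    refine (IsBigO.of_bound 1 (.of_forall fun w => ?_)).trans_isLittleO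
      ((a'.isBigO_sub (𝓝 z) z).norm_norm.mul_isLittleO h4.norm_left |>.trans_isBigO
        (IsBigO.of_bound 1 (.of_forall fun w => by simp)))
    rw [one_mul, norm_mul, norm_norm, norm_norm]
    exact ContinuousLinearMap.opNorm_comp_le _ _
  refine HasFDerivAt.of_isLittleO ((h2.add h3).congr_left fun w => ?_)
  ext u
  simp [h0]

/-- The exterior derivative commutes with pull-backs of class `C¹`. -/
theorem green {α : E → E →L[ℝ] ℝ} {α' : E →L[ℝ] E →L[ℝ] ℝ} {β : F → F →L[ℝ] ℝ}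
    {β' : F →L[ℝ] F →L[ℝ] ℝ} {φ : E → F} {z : E} (hφ : ContDiffAt ℝ 1 φ z)
    (hα : HasFDerivAt α α' z) (hβ : HasFDerivAt β β' (φ z))
    (h : ∀ᶠ w in 𝓝 z, ∀ ξ, β (φ w) (fderiv ℝ φ w ξ) = α w ξ) (ξ η : E) :
    β' (fderiv ℝ φ z ξ) (fderiv ℝ φ z η) - β' (fderiv ℝ φ z η) (fderiv ℝ φ z ξ) =
      α' ξ η - α' η ξ := by
  have d1 : ∀ᶠ w in 𝓝 z, DifferentiableAt ℝ φ w :=
    (hφ.eventually (by simp)).mono fun w hw => hw.differentiableAt one_ne_zero
  have c1 : ContinuousAt (fderiv ℝ φ) z := (hφ.fderiv_right (m := 0) le_rfl).continuousAt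
  have k := hα.sub (hasFDerivAt_comp0
    ((hβ.comp z d1.self_of_nhds.hasFDerivAt).sub_const (β (φ z))) (sub_self _) c1)
  have := second_derivative_symmetric_of_eventually (f := fun w => β (φ z) (φ w)) ?_ k ξ η
  · simp only [sub_apply, ContinuousLinearMap.comp_apply,
      ContinuousLinearMap.flip_apply, ContinuousLinearMap.compL_apply] at this
    linarith
  filter_upwards [d1, h] with w h1 h2
  refine ((β (φ z)).hasFDerivAt.comp w h1.hasFDerivAt).congr_fderiv ?_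
  ext1 u
  simp [← h2]

end Gen

variable {m m' : MF} {φ : V × V → V × V}

/-- The contact form. -/
def al (m : MF) (z : V × V) : V × V →L[ℝ] ℝ := (innerSL ℝ z.2).comp (m.hor z)

theorem d_al (h : m.OK) (z : V × V) : ∃ α' : V × V →L[ℝ] V × V →L[ℝ] ℝ,
    HasFDerivAt (al m) α' z ∧ ∀ ξ η,
      α' η ξ - α' ξ η = ⟪m.hor z ξ, m.ver z η⟫ - ⟪m.ver z ξ, m.hor z η⟫ := by
  have h1 : HasFDerivAt (fun z : V × V => m.S z.1)
      ((fderiv ℝ m.S z.1).comp (.fst ℝ V V)) z :=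
    (h.cS.differentiable (by simp) z.1).hasFDerivAt.comp z hasFDerivAt_fst
  have h2 := ((innerSL ℝ (E := V)).hasFDerivAt.comp z hasFDerivAt_snd).clm_comp
    (h1.clm_comp (hasFDerivAt_const (ContinuousLinearMap.fst ℝ V V) z))
  refine ⟨_, h2, fun ξ η => ?_⟩
  have h3 := congrArg (fun u => ⟪z.2, u⟫) (h.tors z.1 η.1 ξ.1)
  simp only [inner_sub_right, inner_add_right, inner_zero_right] at h3
  have h4 := h.skew z.1 η.1 z.2 (m.S z.1 ξ.1)
  have h5 := h.skew z.1 ξ.1 z.2 (m.S z.1 η.1)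
  simp [MF.hor, MF.ver, inner_add_left, inner_add_right]
  rw [real_inner_comm η.2 (m.S z.1 ξ.1), real_inner_comm (m.om z.1 η.1 z.2) (m.S z.1 ξ.1)]
  change ⟪z.2, _⟫ + ⟪η.2, _⟫ - (⟪z.2, _⟫ + ⟪ξ.2, _⟫) = _
  linarith

theorem ne_nhds {z : V × V} (hz : z.2 ≠ 0) : {z : V × V | z.2 ≠ 0} ∈ 𝓝 z :=
  (isOpen_ne_fun continuous_snd continuous_const).mem_nhds hz

theorem om_of_al (h : m.OK) (h' : m'.OK) (c1 : ContDiffOn ℝ 1 φ {z | z.2 ≠ 0})
    (ha : ∀ z ξ : V × V, z.2 ≠ 0 →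
      ⟪(φ z).2, m'.hor (φ z) (fderiv ℝ φ z ξ)⟫ = ⟪z.2, m.hor z ξ⟫) : Sy m m' φ := by
  refine ⟨ha, fun z ξ η hz => ?_⟩
  obtain ⟨α', a1, a2⟩ := d_al h z
  obtain ⟨β', b1, b2⟩ := d_al h' (φ z)
  rw [← a2, ← b2]
  exact green (c1.contDiffAt (ne_nhds hz)) a1 b1
    (mem_of_superset (ne_nhds hz) fun w hw ξ => ha w ξ hw) η ξ

theorem fderiv_fr (h : CF m m' φ) (x : V) {a : V} (ha : a ≠ 0) (e : V) :
    fderiv ℝ (fr φ x) a e = fderiv ℝ φ (x, a) (0, e) := by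
  have h1 := ((h.c1.contDiffAt (ne_nhds (z := (x, a)) ha)).differentiableAt
    one_ne_zero).hasFDerivAt.comp a (hasFDerivAt_prodMk_right x a)
  rw [show fderiv ℝ (fr φ x) a = _ from h1.fderiv]
  rfl

theorem fr_sep (hJ : m.Jac) (h : CF m m' φ) {x a a' : V} {t : ℝ} (ha : ‖a‖ = 1) (ha' : ‖a'‖ = 1)
    (e : φ (x, a') = m'.Z t (φ (x, a))) : a' = a := by
  have n0 : ∀ b : V, ‖b‖ = 1 → b ≠ 0 := fun b hb => norm_ne_zero_iff.1 (hb.trans_ne one_ne_zero)
  have n1 := n0 _ ((hJ.norm t (x, a)).trans ha)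
  rw [← h.flow t (x, a) (n0 a ha)] at e
  have i : ∀ z w : V × V, z.2 ≠ 0 → w.2 ≠ 0 → φ z = φ w → z = w := fun z w a b c => h.inj a b c
  have h1 := i _ _ (n0 a' ha') n1 e
  have h4 : t = 0 := h.nl t (x, a) ha (by rw [← h1])
  obtain ⟨O, h2, h3, -⟩ := hJ.par (x, a)
  have h5 := h3 t
  rw [← h1, h4, h2] at h5
  exact h5.symm

theorem front_of (hJ : m.Jac) (h : CF m m' φ) (hS : Sy m m' φ) (x : V) : m'.Front (fr φ x) where
  c1 a ha := ((h.c1.contDiffAt (ne_nhds (z := (x, a)) ha)).comp a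
    (f := fun a : V => (x, a)) (contDiffAt_const.prodMk contDiffAt_id)).contDiffWithinAt
  hom r a := h.hom r x a
  norm a ha := h.norm (x, a) ha
  leg a e ha := by
    rw [fderiv_fr h x ha]
    refine (hS.al (x, a) (0, e) ha).trans ?_
    simp [MF.hor]
  sep _ _ _ ha ha' e := fr_sep hJ h ha ha' e

/-- The statement on the contact form. -/
def SAL : Prop := OnC fun m m' φ _ _ => ∀ z ξ : V × V, z.2 ≠ 0 →
  ⟪(φ z).2, m'.hor (φ z) (fderiv ℝ φ z ξ)⟫ = ⟪z.2, m.hor z ξ⟫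

theorem ssy_of (h : SAL) : SSY := fun m m' φ a hi h1 h2 h3 h4 h5 h6 h7 h8 h9 =>
  have k := om_of_al h1 h3 h5.c1 (h m m' φ a hi h1 h2 h3 h4 h5 h6 h7 h8 h9)
  ⟨k, front_of h2 h5 k⟩

end

end Pool.Agent.MP_3ee8cb_gt.D3.LN
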