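import Pool.Agent.MP_3ee8cb_gt.D3LN.Green
import Pool.Agent.MP_3ee8cb_gt.D3OD.DiaG

/-! The conjugacy preserves the contact form. -/

namespace Pool.Agent.MP_3ee8cb_gt.D3.LN

open Set Filter Topology Dia
open scoped RealInnerProductSpace

noncomputable section

variable {m m' : MF} {φ : V × V → V × V}

/-- A bounded convex function on the line is constant. -/
theorem flat {f g : ℝ → ℝ} {K : ℝ} (hf : ∀ t, HasDerivAt f (g t) t) (hg : Monotone g)
    (h0 : ∀ t, 0 ≤ f t) (hb : ∀ t, f t ≤ K) (t : ℝ) : g t = 0 := by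
  have k : ∀ s u, s < u → ∃ c ∈ Ioo s u, |g c| * (u - s) ≤ K := fun s u hsu => by
    obtain ⟨c, hc, e⟩ := exists_hasDerivAt_eq_slope f g hsu
      (fun x _ => (hf x).continuousAt.continuousWithinAt) fun x _ => hf x
    refine ⟨c, hc, ?_⟩
    rw [e, abs_div, abs_of_pos (sub_pos.2 hsu), div_mul_cancel₀ _ (sub_pos.2 hsu).ne', abs_le]
    constructor <;> linarith [h0 s, h0 u, hb s, hb u]
  have K0 : 0 ≤ K := (h0 0).trans (hb 0)
  by_contra hne
  have p := abs_pos.2 hne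
  have T0 : 0 < (K + 1) / |g t| := by positivity
  have T1 : |g t| * ((K + 1) / |g t|) = K + 1 := mul_div_cancel₀ _ p.ne'
  rcases lt_or_gt_of_ne hne with h | h
  · obtain ⟨c, hc, e⟩ := k (t - (K + 1) / |g t|) t (by linarith)
    have : |g t| ≤ |g c| := by
      rw [abs_of_neg h]
      exact (neg_le_neg (hg hc.2.le)).trans (neg_le_abs _)
    rw [sub_sub_cancel] at e
    nlinarith
  · obtain ⟨c, hc, e⟩ := k t (t + (K + 1) / |g t|) (by linarith)
    have : |g t| ≤ |g c| := by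
      rw [abs_of_pos h]
      exact (hg hc.1.le).trans (le_abs_self _)
    rw [add_sub_cancel_left] at e
    nlinarith

/-- A bounded Jacobi field is a multiple of the velocity. -/
theorem bdd_fld (h : m.OK) (hj : m.Jac) {a K : ℝ} (ha : 0 < a) (hu : m.Up (a ^ 2)) {z η : V × V}
    (hz : ‖z.2‖ = 1) (hb : ∀ t, ‖m.J z η t‖ ≤ K) :
    m.ver z η = 0 ∧ m.hor z η = ⟪z.2, m.hor z η⟫ • z.2 := by
  have k : ∀ t, ∃ d, HasDerivAt (fun t => ⟪m.J z η t, m.J' z η t⟫) d t ∧ ‖m.J' z η t‖ ^ 2 +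
      a ^ 2 * (‖m.J z η t‖ ^ 2 - ⟪m.J z η t, (m.Z t z).2⟫ ^ 2) ≤ d := fun t => by
    refine ⟨_, (hj.d1 z η t).inner ℝ (hj.d2 z η t), ?_⟩
    have h1 := hu (m.Z t z).1 (m.J z η t) (m.Z t z).2
    rw [hj.norm, hz, one_pow, mul_one] at h1
    rw [inner_sub_right, inner_sub_left, inner_neg_right, real_inner_self_eq_norm_sq, MF.w, h.skew,
      real_inner_comm (m.K _ _ _ _)]
    linarith
  have cs : ∀ t, 0 ≤ ‖m.J z η t‖ ^ 2 - ⟪m.J z η t, (m.Z t z).2⟫ ^ 2 := fun t => by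
    have := abs_real_inner_le_norm (m.J z η t) (m.Z t z).2
    rw [hj.norm, hz, mul_one] at this
    rw [← sq_abs ⟪_, _⟫]
    exact sub_nonneg.2 (pow_le_pow_left₀ (abs_nonneg _) this 2)
  choose d h1 h2 using k
  have n1 : ∀ t, HasDerivAt (fun t => ‖m.J z η t‖ ^ 2) (2 * ⟪m.J z η t, m.J' z η t⟫) t := fun t => by
    refine (hj.d1 z η t).norm_sq.congr_deriv ?_
    rw [inner_sub_right, real_inner_comm (m.w z t _), MF.w, skew0 h, sub_zero]
  have mo : Monotone fun t => ⟪m.J z η t, m.J' z η t⟫ :=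
    monotone_of_hasDerivAt_nonneg h1 fun t =>
      le_trans (add_nonneg (sq_nonneg _) (mul_nonneg (sq_nonneg _) (cs t))) (h2 t)
  have g0 := flat n1 (mo.const_mul zero_le_two) (fun t => sq_nonneg _)
    fun t => pow_le_pow_left₀ (norm_nonneg _) (hb t) 2
  have d0 : d 0 = 0 := by
    have := h1 0
    rw [show (fun t => ⟪m.J z η t, m.J' z η t⟫) = fun _ => (0 : ℝ) from
      funext fun t => by linarith [g0 t]] at this
    exact this.unique (hasDerivAt_const _ _)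
  have h3 := h2 0
  have h4 := cs 0
  rw [(J_zero h z η).1, h.zero] at h3 h4
  rw [(J_zero h z η).2, d0] at h3
  have h5 := mul_nonneg (sq_nonneg a) h4
  have h6 := sq_nonneg ‖m.ver z η‖
  refine ⟨norm_eq_zero.1 (pow_eq_zero_iff two_ne_zero |>.1 (by linarith)), ?_⟩
  have h7 : ‖m.hor z η‖ ^ 2 - ⟪m.hor z η, z.2⟫ ^ 2 = 0 :=
    (mul_eq_zero.1 (le_antisymm (by linarith) h5)).resolve_left (by positivity)
  rw [← sub_eq_zero, ← norm_eq_zero, ← pow_eq_zero_iff two_ne_zero, norm_sub_sq_real,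
    inner_smul_right, norm_smul, hz, mul_one, Real.norm_eq_abs, sq_abs, real_inner_comm (m.hor z η)]
  linarith

/-- The tangent vector with given horizontal and vertical parts. -/
def mk (m : MF) (z : V × V) : V × V →L[ℝ] V × V :=
  ((m.R z.1).comp (.fst ℝ V V)).prod
    (.snd ℝ V V - ((m.om z.1).flip z.2).comp ((m.R z.1).comp (.fst ℝ V V)))

theorem hor_mk (h : m.OK) (z p : V × V) : m.hor z (mk m z p) = p.1 := h.SR _ _

theorem ver_mk (z p : V × V) : m.ver z (mk m z p) = p.2 := by simp [MF.ver, mk]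

theorem mk_hv (h : m.OK) (z ζ : V × V) : mk m z (m.hor z ζ, m.ver z ζ) = ζ := by
  rw [← sub_eq_zero]
  exact hv_inj h (z := z) (by rw [map_sub, hor_mk h, sub_self]) (by rw [map_sub, ver_mk, sub_self])

theorem onto (h : m.OK) (z p : V × V) (t : ℝ) : ∃ ζ, m.J z ζ t = p.1 ∧ m.J' z ζ t = p.2 := by
  have e0 : m.Z (-t) (m.Z t z) = z := by rw [← h.add, neg_add_cancel, h.zero]
  have e1 : m.Z t ∘ m.Z (-t) = id := funext fun w => by
    rw [Function.comp_apply, ← h.add, add_neg_cancel, h.zero, id]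
  have e2 := fderiv_comp (𝕜 := ℝ) (m.Z t z) (dZ h t _) (dZ h (-t) _)
  rw [e1, fderiv_id, e0] at e2
  have e3 := DFunLike.congr_fun e2 (mk m (m.Z t z) p)
  refine ⟨fderiv ℝ (m.Z (-t)) (m.Z t z) (mk m (m.Z t z) p), ?_, ?_⟩
  · exact (congrArg (m.hor _) e3.symm).trans (hor_mk h _ _)
  · exact (congrArg (m.ver _) e3.symm).trans (ver_mk _ _)

/-- A functional bounded along the whole orbit is a multiple of the derivative of the energy. -/
theorem fun_eq (h : m.OK) (hj : m.Jac) {a K : ℝ} (ha : 0 < a) (hu : m.Up (a ^ 2)) {z : V × V}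
    (hz : ‖z.2‖ = 1) (l : V × V →L[ℝ] ℝ)
    (hb : ∀ t ζ, |l ζ| ≤ K * (‖m.J z ζ t‖ + ‖m.J' z ζ t‖)) :
    ∃ c, ∀ ζ, l ζ = c * ⟪z.2, m.ver z ζ⟫ := by
  obtain ⟨p, hp⟩ := (InnerProductSpace.toDual ℝ V).surjective
    ((l.comp (mk m z)).comp (.inr ℝ V V))
  obtain ⟨q, hq⟩ := (InnerProductSpace.toDual ℝ V).surjective
    ((l.comp (mk m z)).comp (.inl ℝ V V))
  have e : ∀ ζ, l ζ = ⟪m.hor z (mk m z (p, -q)), m.ver z ζ⟫ -
      ⟪m.ver z (mk m z (p, -q)), m.hor z ζ⟫ := fun ζ => by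
    have h1 : ⟪p, m.ver z ζ⟫ = l (mk m z (0, m.ver z ζ)) := DFunLike.congr_fun hp _
    have h2 : ⟪q, m.hor z ζ⟫ = l (mk m z (m.hor z ζ, 0)) := DFunLike.congr_fun hq _
    rw [hor_mk h, ver_mk, inner_neg_left, sub_neg_eq_add, h1, h2, ← map_add, ← map_add,
      Prod.mk_add_mk, zero_add, add_zero, mk_hv h]
  generalize mk m z (p, -q) = η at e
  obtain ⟨h1, h2⟩ := bdd_fld h hj ha hu hz (η := η) (K := |K|) fun t => by
    obtain ⟨ζ, k1, k2⟩ := onto h z (0, m.J z η t) t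
    have := hb t ζ
    rw [e, ← hj.symp z η ζ t, k1, k2, inner_zero_right, sub_zero, norm_zero, zero_add,
      real_inner_self_eq_norm_sq, abs_sq] at this
    by_contra hc
    nlinarith [not_le.1 hc, abs_nonneg K, le_abs_self K]
  exact ⟨_, fun ζ => by rw [e, h1, inner_zero_left, sub_zero, h2, real_inner_smul_left]⟩

theorem d_norm (h : m.OK) (h' : m'.OK) (hc : CF m m' φ) {z : V × V} (hz : z.2 ≠ 0) (ξ : V × V) :
    ⟪(φ z).2, m'.ver (φ z) (fderiv ℝ φ z ξ)⟫ = ⟪z.2, m.ver z ξ⟫ := by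
  have h1 := (hasFDerivAt_snd.comp z (dφ hc hz).hasFDerivAt).norm_sq
  have h2 := (hasFDerivAt_snd (𝕜 := ℝ) (p := z)).norm_sq
  have h3 := DFunLike.congr_fun (h1.unique (h2.congr_of_eventuallyEq
    (mem_of_superset (ne_nhds hz) fun w hw => congrArg (· ^ 2) (hc.norm w hw)))) ξ
  have h4 := skew0 h z.1 ξ.1 z.2
  have h5 := skew0 h' (φ z).1 (fderiv ℝ φ z ξ).1 (φ z).2
  rw [real_inner_comm] at h4 h5
  simp [MF.ver, inner_add_right, h4, h5] at h3 ⊢
  exact h3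

theorem d_rad (hc : CF m m' φ) {z : V × V} (hz : z.2 ≠ 0) :
    fderiv ℝ φ z (0, z.2) = (0, (φ z).2) := by
  have h0 : ∀ w : V × V, HasDerivAt (fun r : ℝ => (w.1, r • w.2)) (0, w.2) 1 := fun w => by
    simpa using (hasDerivAt_const (1 : ℝ) w.1).prodMk ((hasDerivAt_id (1 : ℝ)).smul_const w.2)
  have h1 := (dφ hc hz).hasFDerivAt.comp_hasDerivAt_of_eq 1 (h0 z) (by simp)
  exact h1.unique ((h0 (φ z)).congr_of_eventuallyEq
    (mem_of_superset (isOpen_ne.mem_nhds one_ne_zero) fun r hr => hc.hom r z.1 z.2 hr hz))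

theorem al_one (h : m.OK) (hj : m.Jac) (h' : m'.OK) (hj' : m'.Jac) (hc : CF m m' φ) {a : ℝ}
    (ha : 0 < a) (hu : m'.Up (a ^ 2)) {z : V × V} (hz : ‖z.2‖ = 1) (ξ : V × V) :
    ⟪(φ z).2, m'.hor (φ z) (fderiv ℝ φ z ξ)⟫ = ⟪z.2, m.hor z ξ⟫ := by
  obtain ⟨C, hC⟩ := hc.bdd
  have z0 : z.2 ≠ 0 := norm_ne_zero_iff.1 (hz ▸ one_ne_zero)
  have zt : ∀ t, ‖(m.Z t z).2‖ = 1 := fun t => (hj.norm t z).trans hz
  have w1 : ‖(φ z).2‖ = 1 := (hc.norm z z0).trans hz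
  have i : Function.Injective (fderiv ℝ φ z).toLinearMap :=
    (injective_iff_map_eq_zero _).2 fun η e => by
      have := (hC z η hz).2
      rw [show fderiv ℝ φ z η = 0 from e, map_zero, map_zero, norm_zero, add_zero, mul_zero] at this
      exact hv_inj h (norm_le_zero_iff.1 (by linarith [norm_nonneg (m.ver z η)]))
        (norm_le_zero_iff.1 (by linarith [norm_nonneg (m.hor z η)]))
  let E := (LinearEquiv.ofInjectiveEndo _ i).toContinuousLinearEquiv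
  have l0 : ∀ η, ((al m z).comp E.symm.toContinuousLinearMap - al m' (φ z)) (fderiv ℝ φ z η) =
      ⟪z.2, m.hor z η⟫ - ⟪(φ z).2, m'.hor (φ z) (fderiv ℝ φ z η)⟫ := fun η => by
    change ⟪z.2, m.hor z (E.symm (E η))⟫ - _ = _
    rw [E.symm_apply_apply]
    rfl
  obtain ⟨c, e⟩ := fun_eq h' hj' ha hu w1 (K := C + 1)
    ((al m z).comp E.symm.toContinuousLinearMap - al m' (φ z)) fun t ζ => by
      obtain ⟨η, rfl⟩ : ∃ η, fderiv ℝ φ z η = ζ := E.surjective ζ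
      have k1 := (hC _ (fderiv ℝ (m.Z t) z η) (zt t)).2
      rw [← comm h hj h' hc z0, hc.flow t z z0] at k1
      have k2 := abs_real_inner_le_norm (m.Z t z).2 (m.J z η t)
      have k3 := abs_real_inner_le_norm (m'.Z t (φ z)).2 (m'.J (φ z) (fderiv ℝ φ z η) t)
      rw [zt, one_mul, tan h hj] at k2
      rw [hj'.norm, w1, one_mul, tan h' hj', d_norm h h' hc z0] at k3
      rw [l0, ← add_sub_add_right_eq_sub _ _ (t * ⟪z.2, m.ver z η⟫)]
      refine (abs_sub _ _).trans ?_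
      change ‖m.J z η t‖ + ‖m.J' z η t‖ ≤ C * (‖m'.J _ _ t‖ + ‖m'.J' _ _ t‖) at k1
      linarith [norm_nonneg (m.J' z η t), norm_nonneg (m'.J' (φ z) (fderiv ℝ φ z η) t)]
  have c0 := e (fderiv ℝ φ z (0, z.2))
  rw [l0, d_rad hc z0] at c0
  have c1 : c = 0 := by simpa [MF.hor, MF.ver, w1] using c0.symm
  have := e (fderiv ℝ φ z ξ)
  rw [l0, c1, zero_mul, sub_eq_zero] at this
  exact this.symm

theorem sal : SAL := by
  intro m m' φ a hi h hj h' hj' hc ha _ hu _ z ξ hz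
  have n0 : ‖z.2‖ ≠ 0 := norm_ne_zero_iff.2 hz
  let H : V × V →L[ℝ] V × V := (ContinuousLinearMap.fst ℝ V V).prod (‖z.2‖⁻¹ • .snd ℝ V V)
  have h1 : ‖(H z).2‖ = 1 := norm_smul_inv_norm (𝕜 := ℝ) hz
  have h0 : (H z).2 ≠ 0 := norm_ne_zero_iff.1 (h1 ▸ one_ne_zero)
  have e0 : ∀ w : V × V, w.2 ≠ 0 → φ (H w) = H (φ w) := fun w hw =>
    hc.hom _ w.1 w.2 (inv_ne_zero n0) hw
  have e1 := DFunLike.congr_fun (((dφ hc h0).hasFDerivAt.comp z H.hasFDerivAt).unique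
    ((H.hasFDerivAt.comp z (dφ hc hz).hasFDerivAt).congr_of_eventuallyEq
      (mem_of_superset (ne_nhds hz) e0))) ξ
  have k := al_one h hj h' hj' hc ha hu h1 (H ξ)
  rw [show fderiv ℝ φ (H z) (H ξ) = H (fderiv ℝ φ z ξ) from e1, e0 z hz] at k
  change ⟪‖z.2‖⁻¹ • (φ z).2, m'.hor (φ z) (fderiv ℝ φ z ξ)⟫ = ⟪‖z.2‖⁻¹ • z.2, m.hor z ξ⟫ at k
  rw [real_inner_smul_left, real_inner_smul_left] at k
  exact mul_left_cancel₀ (inv_ne_zero n0) k

theorem ssy : SSY := ssy_of sal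

end

end Pool.Agent.MP_3ee8cb_gt.D3.LN
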